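import Pool.Agent.helper98.P2F.SpecC
import Pool.Agent.helper88.P2F.FLV

/-!
# p2f:CFLV (helper44; copy of helper88/P2F/FLV.lean): fixed quality: the closed condition at finite level, uniformly over all class places
-/

set_option autoImplicit false

open Complex Metric Set Filter Topology MeasureTheory
open Pool.Agent.helper98.ILF
open WP (it)
open HY (UD T S hd UN RM)
open PM
open P2 (SS FL FLS CLS FR TL)
open PL (TP LO PZ GJ INR PG DK ht tr DI CY hG cv hv cm BS DQ)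
open P2B (VE)

noncomputable section

namespace P2F

theorem CFLV (hVEF : CVEF_stmt) (hNZ : P2.V.NZ_stmt) (hSPQ : SPQ_stmt) (hMDC : P2A.MDC_stmt) (hFRX : P2.FRX_stmt)
    (hFRS : P2.FRS_stmt) (hTLX : P2.TLX_stmt) : CFLV_stmt := by
  intro f R hS μ x₀ hT P hP U hU Q hQ a e ha he T hSTT η r hη hr
  by_contra hcon
  rw [← Ultrafilter.eventually_not] at hcon
  have hch : ∀ j : ℕ, ∃ (n w : ℕ) (y : ℂ), y ∈ JJ f ∧
      ((¬ ∀ (n' w : ℕ) (y : ℂ), j ≤ n' → w ≤ T j → P j y (n' + w) → STR (FC f R n' w y (it f w y)) η r) →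
        j ≤ n ∧ w ≤ T j ∧ P j y (n + w) ∧ ¬ STR (FC f R n w y (it f w y)) η r) := by
    intro j
    by_cases h : ∀ (n' w : ℕ) (y : ℂ), j ≤ n' → w ≤ T j → P j y (n' + w) → STR (FC f R n' w y (it f w y)) η r
    · exact ⟨0, 0, x₀, hT.mem, fun h1 => absurd h h1⟩
    · have h1 := h
      push Not at h1
      obtain ⟨n, w, y, h2, h3, h4, h5⟩ := h1
      exact ⟨n, w, y, hP.J j y _ h4, fun _ => ⟨h2, h3, h4, h5⟩⟩
  choose n w y hyJ hbad using hch
  have hev : ∀ᶠ j in (U : Filter ℕ), j ≤ n j ∧ w j ≤ T j ∧ P j (y j) (n j + w j) ∧ ¬ STR (FC f R (n j) (w j) (y j) (it f (w j) (y j))) η r :=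
    hcon.mono fun j h => hbad j h
  have hVE : VE f R μ x₀ y U a n w := hVEF f R hS μ x₀ hT P hP U hU Q hQ a e ha he T hSTT y n w hyJ
    (hev.mono fun j h => ⟨h.1, h.2.1, h.2.2.1⟩)
  have hH : Tendsto (fun j => n j + w j) U atTop := by
    have h0 : Tendsto (fun j : ℕ => j) U atTop := hU
    exact tendsto_atTop_mono' _ (hev.mono fun j h => h.1.trans (Nat.le_add_right _ _)) h0
  obtain ⟨χ, hχ⟩ := hFRX f R hS y hyJ U hU _ hH
  have hwH : ∀ᶠ j in (U : Filter ℕ), w j ≤ n j + w j := Eventually.of_forall fun j => Nat.le_add_left _ _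
  obtain ⟨G, hG⟩ := hTLX f R hS y hyJ U _ χ hχ w hwH
  obtain ⟨hPG, hCY⟩ := hNZ f R hS μ x₀ hT y hyJ U a n w hU ha hVE χ hχ w G (Eventually.of_forall fun j => le_rfl) hG
  have hRM := (hFRS f R hS y hyJ U _ χ hχ).1
  obtain ⟨v₁, v₂, hv1, hv2, hin⟩ := hSPQ _ G χ 0 hPG hCY hRM
  obtain ⟨hdm, hlim⟩ := hMDC f R hS y hyJ U _ χ hχ w G hG
  simp only [Nat.add_sub_cancel] at hdm hlim
  have hUo : IsOpen UD := isOpen_ball
  have hder := hlim.deriv (hdm.mono fun j h => h.1) hUo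
  -- the limit maps the disc into the closed disc
  have hK : closedBall (0 : ℂ) r ⊆ UD := by
    intro u hu
    rw [mem_closedBall, dist_zero_right] at hu
    show u ∈ ball (0 : ℂ) 1
    rw [mem_ball, dist_zero_right]
    linarith
  have hKc : IsCompact (closedBall (0 : ℂ) r) := isCompact_closedBall _ _
  have hu1 := (tendstoLocallyUniformlyOn_iff_forall_isCompact hUo).1 hlim _ hK hKc
  have hu2 := (tendstoLocallyUniformlyOn_iff_forall_isCompact hUo).1 hder _ hK hKc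
  rw [Metric.tendstoUniformlyOn_iff] at hu1 hu2
  have hδ : 0 < η / 4 := by positivity
  have hG1 : ∀ u ∈ UD, ‖G (χ u)‖ ≤ 1 := by
    intro u hu
    have h1 : Tendsto (fun j => FC f R (n j) (w j) (y j) (it f (w j) (y j)) u) U (𝓝 (G (χ u))) := hlim.tendsto_at hu
    refine le_of_tendsto h1.norm ?_
    filter_upwards [hdm] with j hj
    have h2 := hj.2 hu
    have h3 : FC f R (n j) (w j) (y j) (it f (w j) (y j)) u ∈ ball (0 : ℂ) 1 := h2
    rw [mem_ball, dist_zero_right] at h3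
    exact h3.le
  have hfin : ∀ᶠ j in (U : Filter ℕ), STR (FC f R (n j) (w j) (y j) (it f (w j) (y j))) η r := by
    filter_upwards [hdm, hu1 _ hδ, hu2 _ hδ] with j hj h1 h2
    refine ⟨v₁, v₂, hv1, hv2, fun u hu => ?_⟩
    have huK : u ∈ closedBall (0 : ℂ) r := by rwa [mem_closedBall, dist_zero_right]
    have huU : u ∈ UD := hK huK
    have h3 := h1 u huK
    have h4 := h2 u huK
    have h5 := hj.2 huU
    have h6 : FC f R (n j) (w j) (y j) (it f (w j) (y j)) u ∈ ball (0 : ℂ) 1 := h5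
    rw [mem_ball, dist_zero_right] at h6
    rw [dist_eq_norm, norm_sub_rev] at h3 h4
    have h4' : ‖deriv (FC f R (n j) (w j) (y j) (it f (w j) (y j))) u - deriv (fun x => G (χ x)) u‖ < η / 4 := h4
    have h7 := FLV_lip _ _ v₁ v₂ (η / 4) h6.le (hG1 u huU) hv1 hv2 h3.le
    have h8 := hin u huU
    have h9 : ‖deriv (fun x => G (χ x)) u‖ ≤ ‖deriv (FC f R (n j) (w j) (y j) (it f (w j) (y j))) u‖ + η / 4 := by
      have := norm_sub_norm_le (deriv (fun x => G (χ x)) u) (deriv (FC f R (n j) (w j) (y j) (it f (w j) (y j))) u)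
      rw [norm_sub_rev] at this
      linarith
    have hu0 := norm_nonneg u
    have huU' : u ∈ ball (0 : ℂ) 1 := huU
    rw [mem_ball, dist_zero_right] at huU'
    have h10 : 0 ≤ 1 - ‖u‖ ^ 2 := by nlinarith
    have h11 : 1 - ‖u‖ ^ 2 ≤ 1 := by nlinarith
    have h12 : ‖deriv (fun x => G (χ x)) u‖ * (1 - ‖u‖ ^ 2) ≤
        ‖deriv (FC f R (n j) (w j) (y j) (it f (w j) (y j))) u‖ * (1 - ‖u‖ ^ 2) + η / 4 := by
      have h13 := mul_le_mul_of_nonneg_right h9 h10
      nlinarith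
    linarith
  obtain ⟨j, h1, h2⟩ := (hfin.and hev).exists
  exact h2.2.2.2 h1

end P2F
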